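import Pool.Agent.H96.RX.Rk

/-!
Closure of a subspace of small codimension by pigeons (project MP_28250c_RX, helper19).

`X M l = Fin M → Fin l → ZMod 2`: pigeon `i < M` has the block `x i` of `l` bits.  `zb J` : the vectors that vanish on
the blocks in `J`.  `dd i j` : the vectors with equal blocks `i`, `j`.
`exists_closure`: for a subspace `W` of codimension less than `B` there is a set `J` of fewer than `B` pigeons such that,
with `Wb = W ⊓ zb J`, for all `i ≠ j` not both in `J` the subspace `Wb ⊓ dd i j` has codimension at least `l - 1` in `Wb`.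
-/

set_option autoImplicit false
open scoped Classical

namespace H19RX

open H96RX

/-- the vectors that vanish on the blocks in `J` -/
def zb {M l : ℕ} (J : Finset (Fin M)) : Submodule (ZMod 2) (Fin M → Fin l → ZMod 2) where
  carrier := {x | ∀ i ∈ J, x i = 0}
  add_mem' := by
    intro f g hf hg x hx
    rw [Pi.add_apply, hf x hx, hg x hx, add_zero]
  zero_mem' := fun x _ => rfl
  smul_mem' := by
    intro a f hf x hx
    rw [Pi.smul_apply, hf x hx, smul_zero]

/-- the vectors with equal blocks `i`, `j` -/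
def dd {M l : ℕ} (i j : Fin M) : Submodule (ZMod 2) (Fin M → Fin l → ZMod 2) where
  carrier := {x | x i = x j}
  add_mem' := by
    intro f g hf hg
    change f i + g i = f j + g j
    rw [show f i = f j from hf, show g i = g j from hg]
  zero_mem' := rfl
  smul_mem' := by
    intro a f hf
    change a • f i = a • f j
    rw [show f i = f j from hf]

variable {M l : ℕ}

theorem zb_empty : (zb (∅ : Finset (Fin M)) : Submodule (ZMod 2) (Fin M → Fin l → ZMod 2)) = ⊤ := by
  rw [eq_top_iff]
  intro x _ i hi
  exact absurd hi (Finset.notMem_empty i)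

theorem zb_insert (J : Finset (Fin M)) (i : Fin M) :
    (zb (insert i J) : Submodule (ZMod 2) (Fin M → Fin l → ZMod 2)) = zb J ⊓ zb {i} := by
  ext x
  constructor
  · intro h
    refine ⟨fun k hk => h k (Finset.mem_insert_of_mem hk), fun k hk => ?_⟩
    rw [Finset.mem_singleton] at hk
    rw [hk]
    exact h i (Finset.mem_insert_self i J)
  · rintro ⟨h1, h2⟩ k hk
    rcases Finset.mem_insert.1 hk with rfl | hk
    · exact h2 k (Finset.mem_singleton_self k)
    · exact h1 k hk

theorem finrank_X : Module.finrank (ZMod 2) (Fin M → Fin l → ZMod 2) = M * l := by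
  rw [Module.finrank_pi_fintype]
  simp

theorem finrank_zb (J : Finset (Fin M)) :
    Module.finrank (ZMod 2) ↥(zb J : Submodule (ZMod 2) (Fin M → Fin l → ZMod 2)) + J.card * l = M * l := by
  let L : (Fin M → Fin l → ZMod 2) →ₗ[ZMod 2] (J → Fin l → ZMod 2) :=
    LinearMap.funLeft (ZMod 2) (Fin l → ZMod 2) (Subtype.val : J → Fin M)
  have hs : Function.Surjective L :=
    LinearMap.funLeft_surjective_of_injective _ _ _ Subtype.val_injective
  have hk : LinearMap.ker L = zb J := by
    ext x
    rw [LinearMap.mem_ker]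
    constructor
    · intro h i hi
      exact congrFun h ⟨i, hi⟩
    · intro h
      funext i
      exact h i.1 i.2
  have h1 := LinearMap.finrank_range_add_finrank_ker L
  rw [LinearMap.range_eq_top.2 hs, finrank_top, hk, finrank_X, Module.finrank_pi_fintype] at h1
  simp at h1
  omega

theorem exists_closure (hl : 1 ≤ l) (B : ℕ) (W : Submodule (ZMod 2) (Fin M → Fin l → ZMod 2))
    (hW : M * l < Module.finrank (ZMod 2) W + B) :
    ∃ J : Finset (Fin M), J.card < B ∧ J.card + Module.finrank (ZMod 2) W ≤ M * l ∧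
      ∀ i j : Fin M, i ≠ j → ¬ (i ∈ J ∧ j ∈ J) →
        Module.finrank (ZMod 2) ↥(W ⊓ zb J ⊓ dd i j) + (l - 1) ≤ Module.finrank (ZMod 2) ↥(W ⊓ zb J) := by
  obtain ⟨k, rfl⟩ : ∃ k, l = k + 1 := ⟨l - 1, by omega⟩
  rw [Nat.add_sub_cancel]
  let adm : Finset (Finset (Fin M)) := Finset.univ.filter
    (fun J => Module.finrank (ZMod 2) W ≤ Module.finrank (ZMod 2) ↥(W ⊓ zb J) + k * J.card)
  have hne : adm.Nonempty := by
    refine ⟨∅, Finset.mem_filter.2 ⟨Finset.mem_univ _, ?_⟩⟩
    rw [zb_empty, inf_top_eq]
    exact Nat.le_add_right _ _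
  obtain ⟨J, hJ, hmax⟩ := Finset.exists_max_image adm Finset.card hne
  have hJ' := (Finset.mem_filter.1 hJ).2
  have hz : Module.finrank (ZMod 2) ↥(W ⊓ zb J) ≤
      Module.finrank (ZMod 2) ↥(zb J : Submodule (ZMod 2) (Fin M → Fin (k + 1) → ZMod 2)) :=
    Submodule.finrank_mono inf_le_right
  have hz2 := finrank_zb (l := k + 1) J
  have hcard : J.card + Module.finrank (ZMod 2) W ≤ M * (k + 1) := by
    have : J.card * (k + 1) = k * J.card + J.card := by ring
    omega
  have hbig : ∀ J' : Finset (Fin M), J.card < J'.card →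
      Module.finrank (ZMod 2) ↥(W ⊓ zb J') + k * J'.card < Module.finrank (ZMod 2) W := by
    intro J' hc
    by_contra hcon
    rw [not_lt] at hcon
    have := hmax J' (Finset.mem_filter.2 ⟨Finset.mem_univ _, hcon⟩)
    omega
  have hone : ∀ j, j ∉ J → Module.finrank (ZMod 2) ↥(W ⊓ zb (insert j J)) + (k + 1) ≤
      Module.finrank (ZMod 2) ↥(W ⊓ zb J) := by
    intro j hj
    have h1 := hbig (insert j J) (by rw [Finset.card_insert_of_notMem hj]; omega)
    rw [Finset.card_insert_of_notMem hj] at h1
    have : k * (J.card + 1) = k * J.card + k := by ring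
    omega
  refine ⟨J, by omega, hcard, ?_⟩
  have hmix : ∀ i j : Fin M, i ∈ J → j ∉ J →
      Module.finrank (ZMod 2) ↥(W ⊓ zb J ⊓ dd i j) + (k + 1) ≤ Module.finrank (ZMod 2) ↥(W ⊓ zb J) := by
    intro i j hi hj
    have h1 := hone j hj
    have h2 : W ⊓ zb J ⊓ dd i j ≤ W ⊓ zb (insert j J) := by
      rintro x ⟨⟨hx1, hx2⟩, hx3⟩
      refine ⟨hx1, ?_⟩
      intro t ht
      rcases Finset.mem_insert.1 ht with rfl | ht
      · have h3 : x i = x t := hx3
        rw [← h3]
        exact hx2 i hi
      · exact hx2 t ht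
    have h3 := Submodule.finrank_mono h2
    omega
  intro i j hij hnot
  by_cases hi : i ∈ J
  · have hj : j ∉ J := fun hj => hnot ⟨hi, hj⟩
    have := hmix i j hi hj
    omega
  · by_cases hj : j ∈ J
    · have h1 := hmix j i hj hi
      have h2 : W ⊓ zb J ⊓ dd i j ≤ W ⊓ zb J ⊓ dd j i := by
        rintro x ⟨hx, hx3⟩
        exact ⟨hx, Eq.symm hx3⟩
      have h3 := Submodule.finrank_mono h2
      omega
    · have hci : (insert i (insert j J)).card = J.card + 2 := by
        rw [Finset.card_insert_of_notMem, Finset.card_insert_of_notMem hj]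
        rw [Finset.mem_insert, not_or]
        exact ⟨hij, hi⟩
      have h1 := hbig (insert i (insert j J)) (by omega)
      rw [hci] at h1
      have h2 := rank_map (LinearMap.proj (R := ZMod 2) (φ := fun _ : Fin M => Fin (k + 1) → ZMod 2) i)
        (W ⊓ zb J ⊓ dd i j)
      have h3 : Module.finrank (ZMod 2)
          ↥((W ⊓ zb J ⊓ dd i j).map (LinearMap.proj (R := ZMod 2) (φ := fun _ : Fin M => Fin (k + 1) → ZMod 2) i)) ≤
          k + 1 := by
        have := Submodule.finrank_le
          ((W ⊓ zb J ⊓ dd i j).map (LinearMap.proj (R := ZMod 2) (φ := fun _ : Fin M => Fin (k + 1) → ZMod 2) i))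
        rwa [Module.finrank_fin_fun] at this
      have h4 : W ⊓ zb J ⊓ dd i j ⊓
          LinearMap.ker (LinearMap.proj (R := ZMod 2) (φ := fun _ : Fin M => Fin (k + 1) → ZMod 2) i) ≤
          W ⊓ zb (insert i (insert j J)) := by
        rintro x ⟨⟨⟨hx1, hx2⟩, hx3⟩, hx4⟩
        have hx3' : x i = x j := hx3
        have hx4' : x i = 0 := hx4
        refine ⟨hx1, ?_⟩
        intro t ht
        rcases Finset.mem_insert.1 ht with rfl | ht
        · exact hx4'
        · rcases Finset.mem_insert.1 ht with rfl | ht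
          · rw [← hx3', hx4']
          · exact hx2 t ht
      have h5 := Submodule.finrank_mono h4
      have h6 : k * (J.card + 2) = k * J.card + 2 * k := by ring
      omega

end H19RX
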