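import Pool.Agent.H19.RX.Clo

/-!
Counting collisions in a coset (project MP_28250c_RX, helper19).
-/

set_option autoImplicit false
open scoped Classical

namespace H19RX

open H96RX

variable {M l : ℕ}

theorem card_coll (Wb : Submodule (ZMod 2) (Fin M → Fin l → ZMod 2)) (x : Fin M → Fin l → ZMod 2) (i j : Fin M)
    (k : ℕ) (h : Module.finrank (ZMod 2) ↥(Wb ⊓ dd i j) + k ≤ Module.finrank (ZMod 2) Wb) :
    Nat.card {w : Wb // (x + (w : Fin M → Fin l → ZMod 2)) i = (x + (w : Fin M → Fin l → ZMod 2)) j} * 2 ^ k ≤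
      Nat.card Wb := by
  have hcard : ∀ U : Submodule (ZMod 2) (Fin M → Fin l → ZMod 2),
      Nat.card U = 2 ^ Module.finrank (ZMod 2) U := by
    intro U
    rw [Module.natCard_eq_pow_finrank (K := ZMod 2)]
    simp
  have h1 : Nat.card {w : Wb // (x + (w : Fin M → Fin l → ZMod 2)) i = (x + (w : Fin M → Fin l → ZMod 2)) j} ≤
      Nat.card ↥(Wb ⊓ dd i j) := by
    by_cases hne : Nonempty {w : Wb // (x + (w : Fin M → Fin l → ZMod 2)) i = (x + (w : Fin M → Fin l → ZMod 2)) j}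
    · obtain ⟨w0, hw0⟩ := hne
      let g : {w : Wb // (x + (w : Fin M → Fin l → ZMod 2)) i = (x + (w : Fin M → Fin l → ZMod 2)) j} →
          ↥(Wb ⊓ dd i j) := fun w => ⟨(w.1 : Fin M → Fin l → ZMod 2) - w0, by
            refine ⟨Wb.sub_mem w.1.2 w0.2, ?_⟩
            have h2 := w.2
            rw [Pi.add_apply, Pi.add_apply] at h2 hw0
            change (w.1 : Fin M → Fin l → ZMod 2) i - (w0 : Fin M → Fin l → ZMod 2) i =
              (w.1 : Fin M → Fin l → ZMod 2) j - (w0 : Fin M → Fin l → ZMod 2) j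
            have e1 : (w.1 : Fin M → Fin l → ZMod 2) i - (w0 : Fin M → Fin l → ZMod 2) i =
                (x i + (w.1 : Fin M → Fin l → ZMod 2) i) - (x i + (w0 : Fin M → Fin l → ZMod 2) i) := by abel
            rw [e1, h2, hw0]
            abel⟩
      apply Nat.card_le_card_of_injective g
      intro a b hab
      have h3 := congrArg (fun u : ↥(Wb ⊓ dd i j) => (u : Fin M → Fin l → ZMod 2)) hab
      have h4 : (a.1 : Fin M → Fin l → ZMod 2) - w0 = (b.1 : Fin M → Fin l → ZMod 2) - w0 := h3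
      exact Subtype.ext (Subtype.ext (sub_left_injective h4))
    · rw [not_nonempty_iff] at hne
      rw [Nat.card_of_isEmpty]
      exact Nat.zero_le _
  calc _ ≤ Nat.card ↥(Wb ⊓ dd i j) * 2 ^ k := Nat.mul_le_mul_right _ h1
    _ = 2 ^ (Module.finrank (ZMod 2) ↥(Wb ⊓ dd i j) + k) := by rw [hcard, pow_add]
    _ ≤ 2 ^ Module.finrank (ZMod 2) Wb := Nat.pow_le_pow_right (by norm_num) h
    _ = Nat.card Wb := (hcard Wb).symm

theorem card_union (Wb : Submodule (ZMod 2) (Fin M → Fin l → ZMod 2)) (x : Fin M → Fin l → ZMod 2)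
    (T : Finset (Fin M × Fin M)) (k : ℕ)
    (h : ∀ p ∈ T, Module.finrank (ZMod 2) ↥(Wb ⊓ dd p.1 p.2) + k ≤ Module.finrank (ZMod 2) Wb)
    (Q : Wb → Prop) (hQ : ∀ w : Wb, Q w → ∃ p ∈ T,
      (x + (w : Fin M → Fin l → ZMod 2)) p.1 = (x + (w : Fin M → Fin l → ZMod 2)) p.2) :
    Nat.card {w : Wb // Q w} * 2 ^ k ≤ T.card * Nat.card Wb := by
  have hf : Nat.card {w : Wb // Q w} ≤ ∑ p ∈ T,
      Nat.card {w : Wb // (x + (w : Fin M → Fin l → ZMod 2)) p.1 = (x + (w : Fin M → Fin l → ZMod 2)) p.2} := by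
    have : Fintype Wb := Fintype.ofFinite Wb
    have e : ∀ R : Wb → Prop, Nat.card {w : Wb // R w} = (Finset.univ.filter R).card := by
      intro R
      rw [Nat.card_eq_fintype_card, Fintype.card_subtype]
    have g : ∀ R : Fin M × Fin M → Wb → Prop, (∀ w, Q w → ∃ p ∈ T, R p w) →
        Nat.card {w : Wb // Q w} ≤ ∑ p ∈ T, Nat.card {w : Wb // R p w} := by
      intro R hR
      rw [e Q, Finset.sum_congr rfl (fun p _ => e (R p))]
      refine le_trans (Finset.card_le_card ?_) Finset.card_biUnion_le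
      intro w hw
      obtain ⟨p, hp, hpw⟩ := hR w (Finset.mem_filter.1 hw).2
      exact Finset.mem_biUnion.2 ⟨p, hp, Finset.mem_filter.2 ⟨Finset.mem_univ _, hpw⟩⟩
    exact g (fun p w => (x + (w : Fin M → Fin l → ZMod 2)) p.1 = (x + (w : Fin M → Fin l → ZMod 2)) p.2) hQ
  calc Nat.card {w : Wb // Q w} * 2 ^ k
      ≤ (∑ p ∈ T, Nat.card {w : Wb // (x + (w : Fin M → Fin l → ZMod 2)) p.1 =
          (x + (w : Fin M → Fin l → ZMod 2)) p.2}) * 2 ^ k := Nat.mul_le_mul_right _ hf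
    _ = ∑ p ∈ T, Nat.card {w : Wb // (x + (w : Fin M → Fin l → ZMod 2)) p.1 =
          (x + (w : Fin M → Fin l → ZMod 2)) p.2} * 2 ^ k := Finset.sum_mul _ _ _
    _ ≤ ∑ _p ∈ T, Nat.card Wb := Finset.sum_le_sum (fun p hp => card_coll Wb x p.1 p.2 k (h p hp))
    _ = T.card * Nat.card Wb := by rw [Finset.sum_const, smul_eq_mul]

/-- the pairs `p < q` in `J` -/
noncomputable def prs (J : Finset (Fin M)) : Finset (Fin M × Fin M) := (J ×ˢ J).filter (fun p => p.1 < p.2)

theorem mem_prs {J : Finset (Fin M)} {p : Fin M × Fin M} : p ∈ prs J ↔ p.1 ∈ J ∧ p.2 ∈ J ∧ p.1 < p.2 := by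
  unfold prs
  rw [Finset.mem_filter, Finset.mem_product, and_assoc]

theorem two_card_prs (J : Finset (Fin M)) : 2 * (prs J).card ≤ J.card ^ 2 := by
  have h1 : ((prs J).map ⟨Prod.swap, Prod.swap_injective⟩).card = (prs J).card := Finset.card_map _
  have h2 : Disjoint (prs J) ((prs J).map ⟨Prod.swap, Prod.swap_injective⟩) := by
    rw [Finset.disjoint_left]
    intro p hp hq
    obtain ⟨r, hr, hrp⟩ := Finset.mem_map.1 hq
    have e : Prod.swap r = p := hrp
    rw [← e] at hp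
    have a1 := (mem_prs.1 hp).2.2
    have a2 := (mem_prs.1 hr).2.2
    exact absurd (lt_trans a2 a1) (lt_irrefl _)
  have h3 : prs J ∪ (prs J).map ⟨Prod.swap, Prod.swap_injective⟩ ⊆ J ×ˢ J := by
    intro p hp
    rcases Finset.mem_union.1 hp with hp | hp
    · exact Finset.mem_product.2 ⟨(mem_prs.1 hp).1, (mem_prs.1 hp).2.1⟩
    · obtain ⟨r, hr, hrp⟩ := Finset.mem_map.1 hp
      have e : Prod.swap r = p := hrp
      rw [← e]
      exact Finset.mem_product.2 ⟨(mem_prs.1 hr).2.1, (mem_prs.1 hr).1⟩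
  have h4 := Finset.card_le_card h3
  rw [Finset.card_union_of_disjoint h2, h1, Finset.card_product] at h4
  nlinarith

end H19RX
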