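import Pool.Agent.H19.RX.Cnt
import Pool.Agent.H96.RX.Dag

/-!
The covering argument for the binary pigeonhole principle (project MP_28250c_RX, helper19).
-/

set_option autoImplicit false
open scoped Classical

namespace H19RX

open H96RX

/-- Lower bound for refutations of the binary pigeonhole principle.  The sets `A i`, `i < N`, are the false sets of the
lines.  Every `A i` is contained in an affine subspace of codimension at least `mb`, or it is invariant under a subspace of
codimension less than `B`.  Every `A i` is contained in a set `{x | x p = x q}`, `p ≠ q`, or in the union of at most `f`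
earlier sets. -/
theorem bphp_core {M l N B f d α mb : ℕ} (hα : 2 ≤ α) (hl : 2 ≤ l) (hun : f * B ^ 2 * 2 ^ d ≤ 2 ^ l)
    (A : ℕ → Set (Fin M → Fin l → ZMod 2))
    (hA : ∀ i < N,
      (∃ (W : Submodule (ZMod 2) (Fin M → Fin l → ZMod 2)) (x0 : Fin M → Fin l → ZMod 2),
        (∀ x ∈ A i, x - x0 ∈ W) ∧ Module.finrank (ZMod 2) W + mb ≤ M * l) ∨
      (∃ W : Submodule (ZMod 2) (Fin M → Fin l → ZMod 2),
        (∀ x ∈ A i, ∀ w ∈ W, x + w ∈ A i) ∧ M * l < Module.finrank (ZMod 2) W + B))
    (hline : ∀ i < N,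
      (∃ p q : Fin M, p ≠ q ∧ ∀ x ∈ A i, x p = x q) ∨
      (∃ S : Finset ℕ, S.card ≤ f ∧ (∀ j ∈ S, j < i) ∧ ∀ x ∈ A i, ∃ j ∈ S, x ∈ A j))
    (hlast : ∃ i < N, A i = Set.univ) :
    1 ≤ (N : ℝ) * ((1 - (1 / 2 : ℝ) ^ α) ^ mb + (1 / 2 : ℝ) ^ (d * α)) := by
  have key : ∀ i : ℕ, ∃ (D : Set (Fin M → Fin l → ZMod 2)) (W : Submodule (ZMod 2) (Fin M → Fin l → ZMod 2))
      (x0 : Fin M → Fin l → ZMod 2) (J : Finset (Fin M)) (U : Submodule (ZMod 2) (Fin M → Fin l → ZMod 2)),
      i < N → (∀ x ∈ D, x - x0 ∈ W) ∧ (A i = Set.univ → D = Set.univ) ∧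
        ((D = A i ∧ Module.finrank (ZMod 2) W + mb ≤ M * l) ∨
         (W = ⊤ ∧ (∀ x ∈ A i, ∀ w ∈ U, x + w ∈ A i) ∧ J.card < B ∧
          (∀ p q : Fin M, p ≠ q → ¬ (p ∈ J ∧ q ∈ J) →
            Module.finrank (ZMod 2) ↥(U ⊓ zb J ⊓ dd p q) + (l - 1) ≤ Module.finrank (ZMod 2) ↥(U ⊓ zb J)) ∧
          D = {x | x ∈ A i ∧ ∀ p ∈ J, ∀ q ∈ J, p ≠ q → x p ≠ x q})) := by
    intro i
    by_cases hi : i < N
    · rcases hA i hi with ⟨W, x0, h1, h2⟩ | ⟨W, h1, h2⟩
      · exact ⟨A i, W, x0, ∅, ⊥, fun _ => ⟨h1, fun h => h, Or.inl ⟨rfl, h2⟩⟩⟩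
      · have hB : 1 ≤ B := by
          have := Submodule.finrank_le W
          rw [finrank_X] at this
          omega
        by_cases hu : A i = Set.univ
        · obtain ⟨J, hJ1, hJ2, hJ3⟩ := exists_closure (M := M) (l := l) (by omega) B ⊤
            (by rw [finrank_top, finrank_X]; omega)
          rw [finrank_top, finrank_X] at hJ2
          have hJ0 : J = ∅ := Finset.card_eq_zero.1 (by omega)
          refine ⟨{x | x ∈ A i ∧ ∀ p ∈ J, ∀ q ∈ J, p ≠ q → x p ≠ x q}, ⊤, 0, J, ⊤, fun _ =>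
            ⟨fun _ _ => Submodule.mem_top, fun _ => ?_, Or.inr ⟨rfl, fun x _ w _ => ?_, hJ1, hJ3, rfl⟩⟩⟩
          · rw [Set.eq_univ_iff_forall]
            intro x
            refine ⟨hu ▸ Set.mem_univ x, ?_⟩
            rw [hJ0]
            intro p hp
            exact absurd hp (Finset.notMem_empty p)
          · rw [hu]
            exact Set.mem_univ _
        · obtain ⟨J, hJ1, hJ2, hJ3⟩ := exists_closure (M := M) (l := l) (by omega) B W h2
          exact ⟨{x | x ∈ A i ∧ ∀ p ∈ J, ∀ q ∈ J, p ≠ q → x p ≠ x q}, ⊤, 0, J, W, fun _ =>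
            ⟨fun _ _ => Submodule.mem_top, fun h => absurd h hu, Or.inr ⟨rfl, h1, hJ1, hJ3, rfl⟩⟩⟩
    · exact ⟨∅, ⊥, 0, ∅, ⊥, fun h => absurd h hi⟩
  choose D W x0 J U hkey using key
  refine dag (V := Fin M → Fin l → ZMod 2) (α := α) (d := d) (m := mb) (N := N) hα D W x0
    (fun i hi => (hkey i hi).1) ?_ ?_
  · intro i hi
    obtain ⟨h1, h2, h3⟩ := hkey i hi
    rcases h3 with ⟨h3, h4⟩ | ⟨hW, hinv, hJB, hJp, hD⟩
    · left
      rw [finrank_X]
      exact h4
    · right
      have hsame : ∀ x ∈ D i, ∀ w ∈ U i ⊓ zb (J i), x + w ∈ D i := by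
        intro x hx w hw
        rw [hD] at hx ⊢
        refine ⟨hinv x hx.1 w hw.1, ?_⟩
        intro p hp q hq hpq
        rw [Pi.add_apply, Pi.add_apply, hw.2 p hp, hw.2 q hq, add_zero, add_zero]
        exact hx.2 p hp q hq hpq
      refine ⟨U i ⊓ zb (J i), by rw [hW]; exact le_top, hsame, ?_⟩
      intro x hx
      rcases hline i hi with ⟨p, q, hpq, hax⟩ | ⟨S, hS1, hS2, hS3⟩
      · exfalso
        have hxA : x ∈ A i := by rw [hD] at hx; exact hx.1
        by_cases hb : p ∈ J i ∧ q ∈ J i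
        · have hx2 : ∀ p ∈ J i, ∀ q ∈ J i, p ≠ q → x p ≠ x q := by rw [hD] at hx; exact hx.2
          exact hx2 p hb.1 q hb.2 hpq (hax x hxA)
        · have hr := hJp p q hpq hb
          have hle : U i ⊓ zb (J i) ≤ U i ⊓ zb (J i) ⊓ dd p q := by
            intro w hw
            refine ⟨hw, ?_⟩
            have e1 := hax x hxA
            have e2 := hax (x + w) (hinv x hxA w hw.1)
            rw [Pi.add_apply, Pi.add_apply, e1] at e2
            exact add_left_cancel e2
          have := Submodule.finrank_mono hle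
          omega
      · let P : ℕ → Finset (Fin M × Fin M) := fun j =>
          if (J j).card < B then (prs (J j)).filter (fun p => ¬ (p.1 ∈ J i ∧ p.2 ∈ J i)) else ∅
        have hP : ∀ j, 2 * (P j).card ≤ B ^ 2 := by
          intro j
          by_cases hj : (J j).card < B
          · have e : P j = (prs (J j)).filter (fun p => ¬ (p.1 ∈ J i ∧ p.2 ∈ J i)) := if_pos hj
            rw [e]
            have a1 := two_card_prs (J j)
            have a2 := Finset.card_filter_le (prs (J j)) (fun p => ¬ (p.1 ∈ J i ∧ p.2 ∈ J i))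
            have a3 : (J j).card ^ 2 ≤ B ^ 2 := Nat.pow_le_pow_left hj.le 2
            omega
          · have e : P j = ∅ := if_neg hj
            rw [e]
            simp
        have hcard : 2 * (S.biUnion P).card ≤ f * B ^ 2 := by
          have a1 : (S.biUnion P).card ≤ ∑ j ∈ S, (P j).card := Finset.card_biUnion_le
          have a2 : ∑ j ∈ S, 2 * (P j).card ≤ ∑ _j ∈ S, B ^ 2 := Finset.sum_le_sum (fun j _ => hP j)
          rw [← Finset.mul_sum, Finset.sum_const, smul_eq_mul] at a2
          have a3 : S.card * B ^ 2 ≤ f * B ^ 2 := Nat.mul_le_mul_right _ hS1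
          omega
        have hmain := card_union (U i ⊓ zb (J i)) x (S.biUnion P) (l - 1) (by
            intro p hp
            obtain ⟨j, hj, hp⟩ := Finset.mem_biUnion.1 hp
            by_cases hjB : (J j).card < B
            · have e : P j = (prs (J j)).filter (fun p => ¬ (p.1 ∈ J i ∧ p.2 ∈ J i)) := if_pos hjB
              rw [e] at hp
              obtain ⟨hp1, hp2⟩ := Finset.mem_filter.1 hp
              exact hJp p.1 p.2 (ne_of_lt (mem_prs.1 hp1).2.2) hp2
            · have e : P j = ∅ := if_neg hjB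
              rw [e] at hp
              exact absurd hp (Finset.notMem_empty p))
          (fun w => ∀ j < i, x + (w : Fin M → Fin l → ZMod 2) ∉ D j) (by
            intro w hw
            have hxw : x + (w : Fin M → Fin l → ZMod 2) ∈ D i := hsame x hx w w.2
            rw [hD] at hxw
            obtain ⟨j, hj, hjA⟩ := hS3 _ hxw.1
            have hjN : j < N := lt_trans (hS2 j hj) hi
            obtain ⟨g1, g2, g3⟩ := hkey j hjN
            have hnot := hw j (hS2 j hj)
            rcases g3 with ⟨g3, g4⟩ | ⟨gW, ginv, gJB, gJp, gD⟩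
            · rw [g3] at hnot
              exact absurd hjA hnot
            · rw [gD] at hnot
              have hex : ∃ p ∈ J j, ∃ q ∈ J j, p ≠ q ∧ (x + (w : Fin M → Fin l → ZMod 2)) p =
                  (x + (w : Fin M → Fin l → ZMod 2)) q := by
                by_contra hcon
                apply hnot
                refine ⟨hjA, ?_⟩
                intro p hp q hq hpq heq
                exact hcon ⟨p, hp, q, hq, hpq, heq⟩
              have hex2 : ∃ p ∈ J j, ∃ q ∈ J j, p < q ∧ (x + (w : Fin M → Fin l → ZMod 2)) p =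
                  (x + (w : Fin M → Fin l → ZMod 2)) q := by
                obtain ⟨p, hp, q, hq, hpq, heq⟩ := hex
                rcases lt_or_gt_of_ne hpq with h | h
                · exact ⟨p, hp, q, hq, h, heq⟩
                · exact ⟨q, hq, p, hp, h, heq.symm⟩
              obtain ⟨p, hp, q, hq, hpq, heq⟩ := hex2
              refine ⟨(p, q), Finset.mem_biUnion.2 ⟨j, hj, ?_⟩, heq⟩
              have e : P j = (prs (J j)).filter (fun p => ¬ (p.1 ∈ J i ∧ p.2 ∈ J i)) := if_pos gJB
              rw [e]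
              refine Finset.mem_filter.2 ⟨mem_prs.2 ⟨hp, hq, hpq⟩, ?_⟩
              rintro ⟨b1, b2⟩
              exact hxw.2 p b1 q b2 (ne_of_lt hpq) heq)
        set bad := Nat.card {w : ↥(U i ⊓ zb (J i)) // ∀ j < i, x + (w : Fin M → Fin l → ZMod 2) ∉ D j} with hbad
        set tot := Nat.card ↥(U i ⊓ zb (J i)) with htot
        have e2 : (2 : ℕ) ^ l = 2 * 2 ^ (l - 1) := by
          obtain ⟨k, rfl⟩ : ∃ k, l = k + 1 := ⟨l - 1, by omega⟩
          rw [Nat.add_sub_cancel, pow_succ]
          ring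
        have e3 : 2 ^ l * (2 ^ d * bad) ≤ 2 ^ l * tot := by
          calc 2 ^ l * (2 ^ d * bad) = 2 ^ d * 2 * (bad * 2 ^ (l - 1)) := by rw [e2]; ring
            _ ≤ 2 ^ d * 2 * ((S.biUnion P).card * tot) := Nat.mul_le_mul_left _ hmain
            _ = 2 ^ d * (2 * (S.biUnion P).card) * tot := by ring
            _ ≤ 2 ^ d * (f * B ^ 2) * tot := Nat.mul_le_mul_right _ (Nat.mul_le_mul_left _ hcard)
            _ = (f * B ^ 2 * 2 ^ d) * tot := by ring
            _ ≤ 2 ^ l * tot := Nat.mul_le_mul_right _ hun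
        exact Nat.le_of_mul_le_mul_left e3 (by positivity)
  · obtain ⟨i, hi, hu⟩ := hlast
    exact ⟨i, hi, (hkey i hi).2.1 hu⟩

end H19RX
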