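import Pool.Agent.H19.RX.Core

/-!
Variants of `bphp_core` (project MP_28250c_RX, helper19): points indexed by `Fin M × Fin l`; lines indexed by `Fin N`.
-/

set_option autoImplicit false
open scoped Classical

namespace H19RX

open H96RX

theorem bphp_prod {M l N B f d α mb : ℕ} (hα : 2 ≤ α) (hl : 2 ≤ l) (hun : f * B ^ 2 * 2 ^ d ≤ 2 ^ l)
    (A : ℕ → Set (Fin M × Fin l → ZMod 2))
    (hA : ∀ i < N,
      (∃ (W : Submodule (ZMod 2) (Fin M × Fin l → ZMod 2)) (x0 : Fin M × Fin l → ZMod 2),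
        (∀ x ∈ A i, x - x0 ∈ W) ∧ Module.finrank (ZMod 2) W + mb ≤ M * l) ∨
      (∃ W : Submodule (ZMod 2) (Fin M × Fin l → ZMod 2),
        (∀ x ∈ A i, ∀ w ∈ W, x + w ∈ A i) ∧ M * l < Module.finrank (ZMod 2) W + B))
    (hline : ∀ i < N,
      (∃ p q : Fin M, p ≠ q ∧ ∀ x ∈ A i, ∀ t, x (p, t) = x (q, t)) ∨
      (∃ S : Finset ℕ, S.card ≤ f ∧ (∀ j ∈ S, j < i) ∧ ∀ x ∈ A i, ∃ j ∈ S, x ∈ A j))
    (hlast : ∃ i < N, A i = Set.univ) :
    1 ≤ (N : ℝ) * ((1 - (1 / 2 : ℝ) ^ α) ^ mb + (1 / 2 : ℝ) ^ (d * α)) := by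
  let e : (Fin M × Fin l → ZMod 2) ≃ₗ[ZMod 2] (Fin M → Fin l → ZMod 2) :=
    LinearEquiv.curry (ZMod 2) (ZMod 2) (Fin M) (Fin l)
  have he : ∀ (y : Fin M → Fin l → ZMod 2) (p : Fin M) (t : Fin l), e.symm y (p, t) = y p t := fun y p t => rfl
  refine bphp_core (M := M) (l := l) (N := N) (B := B) (f := f) (d := d) (α := α) (mb := mb) hα hl hun
    (fun i => {y | e.symm y ∈ A i}) ?_ ?_ ?_
  · intro i hi
    rcases hA i hi with ⟨W, x0, h1, h2⟩ | ⟨W, h1, h2⟩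
    · left
      refine ⟨W.map (e : (Fin M × Fin l → ZMod 2) →ₗ[ZMod 2] (Fin M → Fin l → ZMod 2)), e x0, ?_, ?_⟩
      · intro y hy
        refine ⟨e.symm y - x0, h1 _ hy, ?_⟩
        change e (e.symm y - x0) = y - e x0
        rw [map_sub, e.apply_symm_apply]
      · rw [LinearEquiv.finrank_map_eq]
        exact h2
    · right
      refine ⟨W.map (e : (Fin M × Fin l → ZMod 2) →ₗ[ZMod 2] (Fin M → Fin l → ZMod 2)), ?_, ?_⟩
      · rintro y hy w ⟨w', hw', rfl⟩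
        change e.symm (y + e w') ∈ A i
        rw [map_add, e.symm_apply_apply]
        exact h1 _ hy w' hw'
      · rw [LinearEquiv.finrank_map_eq]
        exact h2
  · intro i hi
    rcases hline i hi with ⟨p, q, hpq, h⟩ | ⟨S, h1, h2, h3⟩
    · left
      refine ⟨p, q, hpq, ?_⟩
      intro y hy
      funext t
      exact h _ hy t
    · right
      exact ⟨S, h1, h2, fun y hy => h3 _ hy⟩
  · obtain ⟨i, hi, hu⟩ := hlast
    refine ⟨i, hi, ?_⟩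
    rw [Set.eq_univ_iff_forall]
    intro y
    change e.symm y ∈ A i
    rw [hu]
    exact Set.mem_univ _

theorem bphp_fin {M l N B f d α mb : ℕ} (hα : 2 ≤ α) (hl : 2 ≤ l) (hun : f * B ^ 2 * 2 ^ d ≤ 2 ^ l)
    (A : Fin N → Set (Fin M → Fin l → ZMod 2))
    (hA : ∀ i : Fin N,
      (∃ (W : Submodule (ZMod 2) (Fin M → Fin l → ZMod 2)) (x0 : Fin M → Fin l → ZMod 2),
        Module.finrank (ZMod 2) W + mb ≤ M * l ∧ ∀ x ∈ A i, x - x0 ∈ W) ∨
      (∃ W : Submodule (ZMod 2) (Fin M → Fin l → ZMod 2),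
        M * l < Module.finrank (ZMod 2) W + B ∧ ∀ x ∈ A i, ∀ w ∈ W, x + w ∈ A i))
    (hline : ∀ i : Fin N,
      (∃ p q : Fin M, p ≠ q ∧ ∀ x ∈ A i, x p = x q) ∨
      (∃ S : Finset (Fin N), S.card ≤ f ∧ (∀ j ∈ S, j < i) ∧ ∀ x ∈ A i, ∃ j ∈ S, x ∈ A j))
    (hlast : ∃ i : Fin N, A i = Set.univ) :
    1 ≤ (N : ℝ) * ((1 - (1 / 2 : ℝ) ^ α) ^ mb + (1 / 2 : ℝ) ^ (d * α)) := by
  have hval : ∀ (i : ℕ) (hi : i < N), (if h : i < N then A ⟨i, h⟩ else ∅) = A ⟨i, hi⟩ := fun i hi => dif_pos hi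
  refine bphp_core (M := M) (l := l) (N := N) (B := B) (f := f) (d := d) (α := α) (mb := mb) hα hl hun
    (fun i => if h : i < N then A ⟨i, h⟩ else ∅) ?_ ?_ ?_
  · intro i hi
    rw [hval i hi]
    rcases hA ⟨i, hi⟩ with ⟨W, x0, h1, h2⟩ | ⟨W, h1, h2⟩
    · exact Or.inl ⟨W, x0, h2, h1⟩
    · exact Or.inr ⟨W, h2, h1⟩
  · intro i hi
    rw [hval i hi]
    rcases hline ⟨i, hi⟩ with h | ⟨S, h1, h2, h3⟩
    · exact Or.inl h
    · right
      refine ⟨S.image (fun j : Fin N => (j : ℕ)), le_trans Finset.card_image_le h1, ?_, ?_⟩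
      · intro j hj
        obtain ⟨k, hk, rfl⟩ := Finset.mem_image.1 hj
        exact h2 k hk
      · intro x hx
        obtain ⟨j, hj, hxj⟩ := h3 x hx
        refine ⟨j, Finset.mem_image_of_mem _ hj, ?_⟩
        rw [hval j j.2]
        exact hxj
  · obtain ⟨i, hu⟩ := hlast
    refine ⟨i, i.2, ?_⟩
    rw [hval i i.2]
    exact hu

end H19RX
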